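import Pool.Agent.H252.UQ.All

/-!
# Maps `C([0,1]^n) → A` with the same trace are approximately unitarily equivalent (Q2)

The definitions are in `Pool/Agent/H252/UQ/Iface.lean`.

Idea. Let `A` be unital, simple, of stable rank one, with strict comparison and a unique
2-quasitracial state `τ`, which is a trace; `φ, ψ : C([0,1]^n) → A` injective with the same trace `μ`.

1. Choose small disjoint bumps `h_a ≪ h_a'` on the cube with `μ(⋃ {h_a = 1})` almost one. By strict
   comparison `ψ(h_a²) ≈ r_a* φ(h_a'²) r_a`; `T = ∑ φ(h_a') r_a` satisfies `φ(f) T ≈ T ψ(f)` and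
   `T* T ≈ ψ(∑ h_a²)`. By stable rank one the polar part of `T` is given by a unitary `w`, so that `φ`
   and `ψ' = w ψ w*` almost agree off a corner `P = ψ'(k)` of arbitrarily small rank.
2. On the corner connect `φ` and `ψ'` by the tuples `(1 - t σ) φ(x)`, `(1 - t σ) ψ'(x)`
   (contraction of the cube to the vertex `0`, `σ` a cutoff of `P`).
3. Absorption: for every tuple `y_i` on this way, a partition of unity cuts the corner into pieces on
   which `y_i` is almost constant; these pieces have small rank, so by strict comparison they embed
   into `ψ'(g)` for pairwise disjoint bumps `g` sitting at the corresponding points of the cube.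
   The sum `R_i` of these embeddings is an almost isometry from the corner into its complement with
   `φ(x) R_i ≈ R_i y_i`, and the `R_i` have orthogonal ranges.
4. Rotating the corner through the `R_i` (zigzag lemma of the library) gives a unitary which almost
   conjugates `φ` to `ψ'`.
-/

set_option autoImplicit false

namespace Pool.Agent.Results.MP_401a3a_an.UniquenessByTrace

open Pool.Agent.H252.UQ

/-- **Theorem (Q2).** Let `A` be a unital simple C*-algebra of stable rank one (the invertible
elements are dense), with strict comparison, and with a unique 2-quasitracial state `τ`, which is a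
tracial state. Then for every `n` any two injective unital homomorphisms `φ, ψ : C([0,1]^n) → A` with
`τ ∘ φ = τ ∘ ψ` are approximately unitarily equivalent. -/
theorem result (A : Type) [CStarAlgebra A] (hsimple : IsSimpleCStar A)
    (hsr : Dense {x : A | IsUnit x}) (hsc : StrictComparison A)
    (τ : A →ₗ[ℂ] ℂ) (hτ : IsTracialState τ)
    (hunique : ∀ σ : A → ℂ, TwoQuasitracialState σ → ∀ x, σ x = τ x)
    (n : ℕ) (φ ψ : C(Fin n → unitInterval, ℂ) →⋆ₐ[ℂ] A) (hφ : Function.Injective φ)
    (hψ : Function.Injective ψ) (h : ∀ f, τ (φ f) = τ (ψ f)) :
    ApproxUnitarilyEquivalent φ ψ :=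
  uniq A hsimple hsr hsc τ hτ hunique n φ ψ hφ hψ h

end Pool.Agent.Results.MP_401a3a_an.UniquenessByTrace
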